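import Pool.Agent.V1178.AX.Logm

/-!
Axisymmetric Navier-Stokes flows with swirl: the borderline case of the one-sided condition on the
radial velocity, by the test of Feller.

`V = Fin 3 → ℝ` with the maximum norm. See the claim file for the definitions.
-/

open MeasureTheory Set Metric Filter Topology

namespace Pool.Agent.Results.MP_09540e_an.FellerTest

open H459R3.NS W221.NS Pool.Agent.TH305.AX Pool.Agent.V1178.AX

/-- Let `Γ = circ (u t)` be the circulation, `σ = sg x` the square of the distance `ρ` to the axis,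
and let `m` be continuous on `(0, ∞)` with `∫_0^1 s(σ) ∫_σ^1 e(r) dr dσ < ∞`, where
`e(σ) = exp (∫_σ^1 m(r) / r dr)` and `s(σ) = 1 / (σ e(σ))` (`0` can be reached by the diffusion with
the generator `4 ν (σ ∂² + (1 - m) ∂)`; test of Feller). Let `psi m σ = ∫_0^σ s` and
`ww m S σ = ∫_0^σ s(r) ∫_r^S e(q) dq dr`.

First and second, let `(u, p)` be a smooth axisymmetric solution on `[0, T) × ℝ³`, `u` bounded on
`[0, T'] × ℝ³` for each `T' < T`, and let `ρ u_ρ ≥ - 2 ν (1 - m(ρ²))` at all points with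
`0 < ρ² < S` and `|Γ| > δ`. If `|Γ| ≤ M` at time `0`, then
`|Γ| ≤ δ + M min (1, psi(σ) / psi(S) + ww(σ) / (4 ν t))` for `0 < t < T`. If
`|Γ| ≤ δ + A psi(min (σ, S))` at time `0`, then this holds for all `t < T`.

Third, let `u` be an ancient solution in the same class, `|Γ| ≤ M`. If for each `δ > 0` there is
such an `m` with `psi(∞) = ∞` and `ρ u_ρ ≥ - 2 ν (1 - m(ρ²))` at all points with `|Γ| > δ`,
then `Γ = 0`.

Fourth, let `(u, p)` be as in the first part, `Γ` bounded at time `0`, `β > 1`, and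
`ρ u_ρ ≥ - 2 ν + β ν / log (1 / ρ)` at all points with `0 < ρ < r₀` and `Γ ≠ 0`. Then
`|Γ| ≤ C (log (1 / ρ)) ^ (1 - β)` for `ρ < r₁`, `0 ≤ t < T`. For each `α < β - 1` also
`|Γ| ≤ (log (1 / ρ)) ^ (-α)` for `ρ < r₁(α)`, `0 ≤ t < T`. -/
theorem result (ν : ℝ) (hν : 0 < ν) :
    (∀ m : ℝ → ℝ, ContinuousOn m (Ioi 0) →
      IntervalIntegrable (fun r => ss m r * gg m 1 r) volume 0 1 →
      ∀ (T : ℝ) (u : ℝ → V → V) (p : ℝ → V → ℝ), BSol ν T u p →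
      ∀ S δ : ℝ, 0 < S → 0 ≤ δ →
      (∀ t ∈ Ioo 0 T, ∀ x, 0 < sg x → sg x < S → δ < |circ (u t) x| →
        -(2 * ν * (1 - m (sg x))) ≤ x 0 * u t x 0 + x 1 * u t x 1) →
      (∀ M : ℝ, 0 ≤ M → (∀ x, |circ (u 0) x| ≤ M) → ∀ t ∈ Ioo 0 T, ∀ x, |circ (u t) x| ≤
        δ + M * min 1 (psi m (min (sg x) S) / psi m S
          + ww m S (min (sg x) S) / (4 * ν) / t)) ∧
      (∀ A : ℝ, 0 ≤ A → (∀ x, |circ (u 0) x| ≤ δ + A * psi m (min (sg x) S)) →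
        ∀ t ∈ Ico 0 T, ∀ x, |circ (u t) x| ≤ δ + A * psi m (min (sg x) S))) ∧
    (∀ (u : ℝ → V → V) (p : ℝ → V → ℝ),
      (∀ t₀ < 0, BSol ν (-t₀) (fun t => u (t₀ + t)) (fun t => p (t₀ + t))) →
      ∀ M : ℝ, (∀ t < 0, ∀ x, |circ (u t) x| ≤ M) →
      (∀ δ > 0, ∃ m : ℝ → ℝ, (ContinuousOn m (Ioi 0) ∧
        IntervalIntegrable (fun r => ss m r * gg m 1 r) volume 0 1) ∧
        Tendsto (psi m) atTop atTop ∧
        ∀ t < 0, ∀ x, 0 < sg x → δ < |circ (u t) x| →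
          -(2 * ν * (1 - m (sg x))) ≤ x 0 * u t x 0 + x 1 * u t x 1) →
      ∀ t < 0, ∀ x, circ (u t) x = 0) ∧
    ∀ (T : ℝ) (u : ℝ → V → V) (p : ℝ → V → ℝ), BSol ν T u p →
      ∀ β r₀ M : ℝ, 1 < β → 0 < r₀ → (∀ x, |circ (u 0) x| ≤ M) →
      (∀ t ∈ Ioo 0 T, ∀ x, 0 < sg x → √(sg x) < r₀ → circ (u t) x ≠ 0 →
        -(2 * ν) + β * ν / (-Real.log (√(sg x))) ≤ x 0 * u t x 0 + x 1 * u t x 1) →
      (∃ C r₁ : ℝ, 0 < r₁ ∧ r₁ < 1 ∧ ∀ t ∈ Ico 0 T, ∀ x, 0 < sg x → √(sg x) < r₁ →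
        |circ (u t) x| ≤ C * (-Real.log (√(sg x))) ^ (1 - β)) ∧
      ∀ α < β - 1, ∃ r₁ : ℝ, 0 < r₁ ∧ r₁ < 1 ∧ ∀ t ∈ Ico 0 T, ∀ x, 0 < sg x →
        √(sg x) < r₁ → |circ (u t) x| ≤ (-Real.log (√(sg x))) ^ (-α) :=
  ⟨fun _ hm1 hm2 _ _ _ h _ _ hS hδ hc =>
    ⟨fun _ hM hin _ ht x => tube hν h ⟨hm1, hm2⟩ hS hM hδ hin hc ht x,
      fun _ hA hin _ ht x => modulus hν h ⟨hm1, hm2⟩ hS hA hδ hin hc ht x⟩,
    fun _ _ h _ hM hc => ancientF hν h hM fun δ hδ => by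
      obtain ⟨m, h1, h2, h3⟩ := hc δ hδ
      exact ⟨m, ⟨h1.1, h1.2⟩, h2, h3⟩,
    fun _ _ _ h _ _ _ hβ hr hin hc =>
      ⟨logb hν h hβ hr hin hc, fun _ hα => logb' hν h hβ hr hα hin hc⟩⟩

end Pool.Agent.Results.MP_09540e_an.FellerTest
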